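import Pool.Agent.helper11.VQ.Spec3a

/-! Row vq:MKZ (MP_07c750_an): the step kernels of a word. -/

set_option autoImplicit false

open scoped ENNReal ComplexConjugate
open MeasureTheory Filter Set

namespace Pool.Agent.VQ

open Pool.Agent.RPQ (IsOp IsMul OProj wrd PJ und1 nst mks)

noncomputable section

theorem MKZ_nst (n : ℕ) (l : List ℕ) : nst (n :: l) = n + 1 + nst l := by
  simp [nst]

theorem MKZ_mem (n : ℕ) (l : List ℕ) (j : ℕ) : j ∈ mks (n :: l) ↔ j = 0 ∨ ∃ i ∈ mks l, i + (n + 1) = j := by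
  simp [mks]

theorem MKZ_list (l : List ℕ) : nst l ∈ mks l ∧ ∀ j ∈ mks l, j ≤ nst l := by
  induction l with
  | nil => simp [mks, nst]
  | cons n l ih =>
    obtain ⟨h2, h3⟩ := ih
    refine ⟨?_, ?_⟩
    · rw [MKZ_mem]
      right
      refine ⟨nst l, h2, ?_⟩
      rw [MKZ_nst]
      ring
    · intro j hj
      rw [MKZ_mem] at hj
      rw [MKZ_nst]
      rcases hj with rfl | ⟨i, hi, rfl⟩
      · omega
      · have := h3 i hi
        omega

theorem MKZ_pos (l : List ℕ) (hl : l ≠ []) : 1 ≤ nst l := by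
  cases l with
  | nil => exact absurd rfl hl
  | cons n l =>
    rw [MKZ_nst]
    omega

section ys

variable {Y : Type} [MeasurableSpace Y]

theorem MKZ_sZ {E : Type} [MulZeroOneClass E] (A : Set Y) (s : Y → Y → E) (n : ℕ) (l : List ℕ)
    (hl : l ≠ []) : (∀ j ≤ n, sZ A (n :: l) s j = fun g h => (if j = 0 then A.indicator (fun _ => 1) g else 1) * s g h) ∧
    ∀ j, sZ A (n :: l) s (n + 1 + j) = sZ A l s j := by
  have hp := MKZ_pos l hl
  constructor
  · intro j hj
    funext g h
    have h1 : (j ∈ mks (n :: l)) = (j = 0) := by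
      rw [MKZ_mem]
      refine propext ⟨?_, fun h => Or.inl h⟩
      rintro (h | ⟨i, -, hi⟩)
      · exact h
      · omega
    have h2 : ¬ (j + 1 = nst (n :: l)) := by
      rw [MKZ_nst]
      omega
    rw [sZ, if_neg h2, mul_one]
    simp only [h1]
  · intro j
    funext g h
    have h1 : (n + 1 + j ∈ mks (n :: l)) = (j ∈ mks l) := by
      rw [MKZ_mem]
      refine propext ⟨?_, fun h => Or.inr ⟨j, h, by ring⟩⟩
      rintro (h | ⟨i, hi, hi'⟩)
      · omega
      · have : i = j := by omega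
        rw [← this]
        exact hi
    have h2 : (n + 1 + j + 1 = nst (n :: l)) = (j + 1 = nst l) := by
      rw [MKZ_nst]
      exact propext ⟨fun h => by omega, fun h => by omega⟩
    rw [sZ, sZ]
    simp only [h1, h2]

theorem MKZ_prod {E : Type} [CommMonoidWithZero E] (A : Set Y) (s : Y → Y → E) (l : List ℕ)
    (w : ℕ → Y) (hl : l ≠ []) : ∏ j ∈ Finset.range (nst l), sZ A l s j (w j) (w (j + 1)) =
      {w : ℕ → Y | ∀ j ∈ mks l, w j ∈ A}.indicator (fun w => ∏ j ∈ Finset.range (nst l), s (w j) (w (j + 1))) w := by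
  obtain ⟨h2, h3⟩ := MKZ_list l
  have hp := MKZ_pos l hl
  by_cases hw : ∀ j ∈ mks l, w j ∈ A
  · have hw' : w ∈ {w : ℕ → Y | ∀ j ∈ mks l, w j ∈ A} := hw
    rw [Set.indicator_of_mem hw']
    refine Finset.prod_congr rfl fun j _ => ?_
    have e1 : (if j ∈ mks l then A.indicator (fun _ => (1 : E)) (w j) else 1) = 1 := by
      split_ifs with h
      · exact Set.indicator_of_mem (hw j h) _
      · rfl
    have e2 : (if j + 1 = nst l then A.indicator (fun _ => (1 : E)) (w (j + 1)) else 1) = 1 := by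
      split_ifs with h
      · rw [h]
        exact Set.indicator_of_mem (hw _ h2) _
      · rfl
    rw [sZ, e1, e2, one_mul, mul_one]
  · have hw' : w ∉ {w : ℕ → Y | ∀ j ∈ mks l, w j ∈ A} := hw
    rw [Set.indicator_of_notMem hw']
    obtain ⟨i, hi, hiA⟩ : ∃ i ∈ mks l, w i ∉ A := by
      by_contra hcon
      apply hw
      intro j hj
      by_contra hj'
      exact hcon ⟨j, hj, hj'⟩
    have hle := h3 i hi
    rcases Nat.lt_or_ge i (nst l) with hlt | hge
    · refine Finset.prod_eq_zero (Finset.mem_range.mpr hlt) ?_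
      rw [sZ, if_pos hi, Set.indicator_of_notMem hiA, zero_mul, zero_mul]
    · have hei : i = nst l := by omega
      refine Finset.prod_eq_zero (i := nst l - 1) (Finset.mem_range.mpr (by omega)) ?_
      have h4 : nst l - 1 + 1 = nst l := by omega
      rw [sZ, if_pos h4, h4, ← hei, Set.indicator_of_notMem hiA, mul_zero]

end ys

theorem MKZ_proof : MKZ_stmt := by
  intro Y _
  refine ⟨fun A s n l hl => MKZ_sZ A s n l hl, ?_⟩
  intro A θ u l w hl
  have h := MKZ_prod A (stZ θ u) l w hl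
  refine h.trans ?_
  unfold wgZ
  by_cases hw : ∀ j ∈ mks l, w j ∈ A
  · have hw' : w ∈ {w : ℕ → Y | ∀ j ∈ mks l, w j ∈ A} := hw
    rw [Set.indicator_of_mem hw', Set.indicator_of_mem hw']
    have h1 : ∀ j, stZ θ u (w j) (w (j + 1)) =
        Complex.exp (((θ (w j) : ℝ) : ℂ) * Complex.I) * u (w j) (w (j + 1)) := fun j => rfl
    rw [Finset.prod_congr rfl fun j _ => h1 j, Finset.prod_mul_distrib, ← Complex.exp_sum, ← Finset.sum_mul]
    push_cast
    rfl
  · have hw' : w ∉ {w : ℕ → Y | ∀ j ∈ mks l, w j ∈ A} := hw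
    rw [Set.indicator_of_notMem hw', Set.indicator_of_notMem hw', mul_zero]

end

end Pool.Agent.VQ
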