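import Pool.Agent.helper74.VQ.SpecC

/-!
# Project VQ (MP_07c750_an), row vq:VUS: Schur bounds for the small step kernel
-/

set_option autoImplicit false

open scoped MatrixGroups ContDiff Topology UpperHalfPlane ComplexConjugate ENNReal
open UpperHalfPlane MeasureTheory Filter Set

namespace Pool.Agent.VQ

open Pool.Agent.RS

noncomputable section

/-- boxes are symmetric -/
theorem VUS_inv {r : ℝ} {g : SL(2, ℝ)} (hg : g ∈ Bo r) : g⁻¹ ∈ Bo r := by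
  have h00 : (g⁻¹).1 0 0 = g.1 1 1 := by
    rw [Matrix.SpecialLinearGroup.SL2_inv_expl]
    rfl
  have h01 : (g⁻¹).1 0 1 = -g.1 0 1 := by
    rw [Matrix.SpecialLinearGroup.SL2_inv_expl]
    rfl
  have h10 : (g⁻¹).1 1 0 = -g.1 1 0 := by
    rw [Matrix.SpecialLinearGroup.SL2_inv_expl]
    rfl
  have h11 : (g⁻¹).1 1 1 = g.1 0 0 := by
    rw [Matrix.SpecialLinearGroup.SL2_inv_expl]
    rfl
  rcases hg with hg | hg
  · left
    have g00 := hg 0 0
    have g01 := hg 0 1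
    have g10 := hg 1 0
    have g11 := hg 1 1
    simp only [Matrix.one_apply_eq, Matrix.one_apply_ne (show (0 : Fin 2) ≠ 1 by decide), Matrix.one_apply_ne (show (1 : Fin 2) ≠ 0 by decide), sub_zero] at g00 g01 g10 g11
    intro i j
    fin_cases i <;> fin_cases j
    · simpa [h00] using g11
    · simpa [h01] using g01
    · simpa [h10] using g10
    · simpa [h11] using g00
  · right
    have g00 := hg 0 0
    have g01 := hg 0 1
    have g10 := hg 1 0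
    have g11 := hg 1 1
    simp only [Matrix.one_apply_eq, Matrix.one_apply_ne (show (0 : Fin 2) ≠ 1 by decide), Matrix.one_apply_ne (show (1 : Fin 2) ≠ 0 by decide), add_zero] at g00 g01 g10 g11
    intro i j
    fin_cases i <;> fin_cases j
    · simpa [h00] using g11
    · simpa [h01] using g01
    · simpa [h10] using g10
    · simpa [h11] using g00

/-- a bounded kernel with a small support -/
theorem VUS_int {f : SL(2, ℝ) × ℝ → ℂ} {S : Set (SL(2, ℝ) × ℝ)} {a b : ℝ} (ha : 0 ≤ a) (hf : ∀ q, ‖f q‖ ≤ a)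
    (h0 : ∀ q, f q ≠ 0 → q ∈ S) (hS : mP S ≤ ENNReal.ofReal b) : ∫⁻ q, ‖f q‖ₑ ∂mP ≤ ENNReal.ofReal (a * b) := by
  have h1 : ∀ q, ‖f q‖ₑ ≤ S.indicator (fun _ => ENNReal.ofReal a) q := by
    intro q
    by_cases hq : q ∈ S
    · rw [Set.indicator_of_mem hq]
      rw [← ofReal_norm]
      exact ENNReal.ofReal_le_ofReal (hf q)
    · rw [Set.indicator_of_notMem hq]
      have h2 : f q = 0 := by
        by_contra hne
        exact hq (h0 q hne)
      simp [h2]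
  calc ∫⁻ q, ‖f q‖ₑ ∂mP ≤ ∫⁻ q, S.indicator (fun _ => ENNReal.ofReal a) q ∂mP := lintegral_mono h1
    _ ≤ ENNReal.ofReal a * mP S := lintegral_indicator_const_le _ _
    _ ≤ ENNReal.ofReal a * ENNReal.ofReal b := mul_le_mul_right hS _
    _ = ENNReal.ofReal (a * b) := (ENNReal.ofReal_mul ha).symm

/-- the numbers -/
theorem VUS_num {R CL CV C z1 z2 : ℝ} (hR : 1 ≤ R) (hV : CV ≤ R ^ z2) (hz : CL * z1 ≤ z2) (hC : 6 * z2 ≤ C * z2) :
    R ^ (2 + CL * z1) * (CV * (R ^ (-(1 / 2) + z2)) ^ 4) ≤ R ^ (C * z2) := by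
  have hR0 : 0 < R := by linarith
  have h4 : (R ^ (-(1 / 2) + z2)) ^ 4 = R ^ (-2 + 4 * z2) := by
    rw [← Real.rpow_natCast, ← Real.rpow_mul hR0.le]
    congr 1
    push_cast
    ring
  rw [h4]
  calc R ^ (2 + CL * z1) * (CV * R ^ (-2 + 4 * z2)) ≤ R ^ (2 + CL * z1) * (R ^ z2 * R ^ (-2 + 4 * z2)) := by
        gcongr
    _ = R ^ (2 + CL * z1 + (z2 + (-2 + 4 * z2))) := by
        rw [← Real.rpow_add hR0, ← Real.rpow_add hR0]
    _ ≤ R ^ (C * z2) := Real.rpow_le_rpow_of_exponent_le hR (by linarith)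

theorem VUS_proof (hL : VUL_stmt) (hN : VNV_stmt) : VUS_stmt := by
  obtain ⟨CL, hCL, hL⟩ := hL
  obtain ⟨CV, hCV, hN⟩ := hN
  refine ⟨CL + 6, by linarith, ?_⟩
  intro ch B A hch hA
  have he3 : 0 < A.e3 := hA.e3
  have hz : 0 < A.z := by nlinarith [hA.z]
  have hz' : A.e3 ≤ A.z := by nlinarith [hA.z]
  have hz1 : A.z ≤ A.z1 := by nlinarith [hA.z1]
  have hz10 : 0 < A.z1 := by linarith
  have hz2 : CL * A.z1 ≤ A.z2 := by nlinarith [hA.z2]
  have hz20 : 0 < A.z2 := by nlinarith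
  have hm : (1 : ℝ) ≤ A.m := by exact_mod_cast hA.m
  have hup : (CL + 6) * A.z2 ≤ 1 := by
    have h1 : A.z2 ≤ A.m * A.z2 := by nlinarith
    have h2 : (CL + 6) * A.z2 ≤ (CL + 6) * (A.m * A.z2) := by
      apply mul_le_mul_of_nonneg_left h1
      linarith
    linarith [hA.up]
  have hrg : Rg CL A.e3 A.z A.z1 := by
    refine ⟨he3.le, hz, hz1, ?_, ?_⟩
    · have h1 : (CL + 6) * A.e3 ≤ A.z := hA.z
      nlinarith
    · nlinarith
  obtain ⟨R1, hR1, hL⟩ := hL ch A.e3 A.z A.z1 1 B hch hrg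
  refine ⟨max R1 (max (65536 : ℝ) (CV ^ (A.z2⁻¹))), le_max_of_le_left hR1, ?_⟩
  intro R δ Γ D hR hD hδ
  have hRR1 : R1 ≤ R := le_trans (le_max_left _ _) hR
  have hR6 : (65536 : ℝ) ≤ R := le_trans (le_trans (le_max_left _ _) (le_max_right _ _)) hR
  have hRV : CV ^ (A.z2⁻¹) ≤ R := le_trans (le_trans (le_max_right _ _) (le_max_right _ _)) hR
  have hRone : 1 ≤ R := by linarith
  have hR0 : 0 < R := by linarith
  have hV : CV ≤ R ^ A.z2 := by
    have h1 : (CV ^ (A.z2⁻¹)) ^ A.z2 ≤ R ^ A.z2 := Real.rpow_le_rpow (by positivity) hRV hz20.le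
    rwa [← Real.rpow_mul (by linarith), inv_mul_cancel₀ hz20.ne', Real.rpow_one] at h1
  have h14 : R ^ (-(1 / 4) : ℝ) ≤ 1 / 16 := by
    have h1 : R ^ (-(1 / 4) : ℝ) ≤ (65536 : ℝ) ^ (-(1 / 4) : ℝ) := Real.rpow_le_rpow_of_nonpos (by norm_num) hR6 (by norm_num)
    have h2 : (65536 : ℝ) ^ (-(1 / 4) : ℝ) = 1 / 16 := by
      rw [show (65536 : ℝ) = (16 : ℝ) ^ (4 : ℝ) by norm_num, ← Real.rpow_mul (by norm_num)]
      norm_num
    linarith
  have hw : 2 * R ^ (-(1 / 4) : ℝ) ≤ 1 / 8 := by linarith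
  have hr0 : 0 < A.r R := Real.rpow_pos_of_pos hR0 _
  have hr4 : A.r R ≤ 1 / 4 := by
    have h1 : A.r R ≤ R ^ (-(1 / 4) : ℝ) := by
      unfold Prm.r
      apply Real.rpow_le_rpow_of_exponent_le hRone
      nlinarith
    linarith
  have hsg : 0 ≤ A.sg R := mul_nonneg he3.le (Real.log_nonneg hRone)
  have hnum := VUS_num (C := CL + 6) hRone hV hz2 (by nlinarith)
  have ha : 0 ≤ R ^ (2 + CL * A.z1) := (Real.rpow_pos_of_pos hR0 _).le
  have hus : ∀ p q, ‖us D ch A R p q‖ ≤ R ^ (2 + CL * A.z1) := by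
    intro p q
    unfold us
    split_ifs with h
    · exact (hL R δ (A.sg R) Γ D p q hRR1 hD hδ hsg le_rfl ⟨mem_univ _, h.1⟩ ⟨mem_univ _, h.2.1⟩).1
    · simpa using ha
  have hpr : ∀ p q, ‖pr D ch A R p q‖ ≤ R ^ (2 + CL * A.z1) := by
    intro p q
    unfold pr
    split_ifs with h
    · exact (hL R δ (A.sg R) Γ D p q hRR1 hD hδ hsg le_rfl ⟨mem_univ _, h.1⟩ ⟨mem_univ _, h.2.1⟩).2.2.2.1
    · simpa using ha
  have hus0 : ∀ p q, us D ch A R p q ≠ 0 → p.2 ∈ Wi 2 R ∧ q.2 ∈ Wi 2 R ∧ Nb (A.r R) (D.ph (A.sg R) p) q := by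
    intro p q h
    unfold us at h
    by_contra hc
    rw [if_neg hc] at h
    exact h rfl
  have hpr0 : ∀ p q, pr D ch A R p q ≠ 0 → p.2 ∈ Wi 2 R ∧ q.2 ∈ Wi 2 R ∧ Nb (A.r R) p q := by
    intro p q h
    unfold pr at h
    by_contra hc
    rw [if_neg hc] at h
    exact h rfl
  have hV2 : ∀ (h : SL(2, ℝ)) (t E : ℝ), mP {q | q ∈ GW 2 R ∧ h⁻¹ * D.fl q.2 t q.1 ∈ Bo (A.r R) ∧ |E - q.2| < A.r R} ≤ ENNReal.ofReal (CV * A.r R ^ 4) :=
    fun h t E => (hN Γ δ B D hD hδ R hw hRone h 0 t (A.r R) hr0 hr4 le_rfl (by norm_num)).2.1 E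
  refine ⟨?_, ?_, ?_, ?_⟩
  · intro p
    refine le_trans (VUS_int ha (hus p) ?_ (hV2 (D.fl p.2 (A.sg R) p.1) 0 p.2)) (ENNReal.ofReal_le_ofReal hnum)
    intro q hq
    obtain ⟨-, h2, h3, h4⟩ := hus0 p q hq
    refine ⟨⟨mem_univ _, h2⟩, ?_, h4⟩
    rw [hD.fl0]
    exact h3
  · intro q
    refine le_trans (VUS_int ha (fun p => hus p q) ?_ (hV2 q.1 (A.sg R) q.2)) (ENNReal.ofReal_le_ofReal hnum)
    intro p hp
    obtain ⟨h1, -, h3, h4⟩ := hus0 p q hp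
    refine ⟨⟨mem_univ _, h1⟩, ?_, ?_⟩
    · have h5 := VUS_inv h3
      rwa [mul_inv_rev, inv_inv] at h5
    · rw [abs_sub_comm]
      exact h4
  · intro p
    refine le_trans (VUS_int ha (hpr p) ?_ (hV2 p.1 0 p.2)) (ENNReal.ofReal_le_ofReal hnum)
    intro q hq
    obtain ⟨-, h2, h3, h4⟩ := hpr0 p q hq
    refine ⟨⟨mem_univ _, h2⟩, ?_, h4⟩
    rw [hD.fl0]
    exact h3
  · intro q
    refine le_trans (VUS_int ha (fun p => hpr p q) ?_ (hV2 q.1 0 q.2)) (ENNReal.ofReal_le_ofReal hnum)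
    intro p hp
    obtain ⟨h1, -, h3, h4⟩ := hpr0 p q hp
    refine ⟨⟨mem_univ _, h1⟩, ?_, ?_⟩
    · rw [hD.fl0]
      have h5 := VUS_inv h3
      rwa [mul_inv_rev, inv_inv] at h5
    · rw [abs_sub_comm]
      exact h4

end

end Pool.Agent.VQ
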